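import Pool.Agent.TH305.DR.Cut

/-! Project AN: cut-off functions (S_CUTQ) and analytic interior estimates for harmonic functions
(S_HARA). -/

set_option autoImplicit false

open MeasureTheory Set Metric Filter Topology
open scoped ContDiff

namespace Pool.Agent.Y475.AN

open H459R3.NS Pool.Agent.TH305.DR

/-- the transition function is Lipschitz -/
lemma trans_lip : ∃ D : ℝ, 0 ≤ D ∧ ∀ x y : ℝ,
    |Real.smoothTransition x - Real.smoothTransition y| ≤ D * |x - y| := by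
  have hsm : ContDiff ℝ ∞ Real.smoothTransition := Real.smoothTransition.contDiff
  have hcont : Continuous (deriv Real.smoothTransition) := hsm.continuous_deriv (by simp)
  have hcs : HasCompactSupport (deriv Real.smoothTransition) := by
    refine HasCompactSupport.intro (isCompact_Icc (a := (0 : ℝ)) (b := 1)) fun x hx => ?_
    rw [mem_Icc, not_and_or, not_le, not_le] at hx
    rcases hx with hx | hx
    · have h : Real.smoothTransition =ᶠ[𝓝 x] fun _ => 0 := by
        filter_upwards [gt_mem_nhds hx] with y hy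
        exact Real.smoothTransition.zero_of_nonpos hy.le
      rw [h.deriv_eq]; simp
    · have h : Real.smoothTransition =ᶠ[𝓝 x] fun _ => 1 := by
        filter_upwards [lt_mem_nhds hx] with y hy
        exact Real.smoothTransition.one_of_one_le hy.le
      rw [h.deriv_eq]; simp
  obtain ⟨C, hC⟩ := hcont.bounded_above_of_compact_support hcs
  have hC0 : 0 ≤ C := (norm_nonneg _).trans (hC 0)
  refine ⟨C, hC0, fun x y => ?_⟩
  have h := Convex.norm_image_sub_le_of_norm_deriv_le (f := Real.smoothTransition) (s := univ)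
    (fun x _ => (hsm.differentiable (by simp)).differentiableAt) (fun x _ => hC x) convex_univ
    (mem_univ y) (mem_univ x)
  simpa [Real.norm_eq_abs] using h

/-- the one variable cut-off function -/
noncomputable def cs1 (ρ g y : ℝ) : ℝ :=
  Real.smoothTransition ((ρ - y) / g) * Real.smoothTransition ((ρ + y) / g)

lemma cs1_nonneg (ρ g y : ℝ) : 0 ≤ cs1 ρ g y :=
  mul_nonneg (Real.smoothTransition.nonneg _) (Real.smoothTransition.nonneg _)

lemma cs1_le (ρ g y : ℝ) : cs1 ρ g y ≤ 1 :=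
  mul_le_one₀ (Real.smoothTransition.le_one _) (Real.smoothTransition.nonneg _)
    (Real.smoothTransition.le_one _)

lemma cs1_one {ρ g y : ℝ} (hg : 0 < g) (h : |y| ≤ ρ - g) : cs1 ρ g y = 1 := by
  rw [abs_le] at h
  unfold cs1
  rw [Real.smoothTransition.one_of_one_le, Real.smoothTransition.one_of_one_le, one_mul]
  · rw [le_div_iff₀ hg]; linarith
  · rw [le_div_iff₀ hg]; linarith

lemma cs1_zero {ρ g y : ℝ} (hg : 0 < g) (h : ρ ≤ |y|) : cs1 ρ g y = 0 := by
  unfold cs1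
  rcases le_total 0 y with hy | hy
  · rw [abs_of_nonneg hy] at h
    rw [Real.smoothTransition.zero_of_nonpos (div_nonpos_of_nonpos_of_nonneg (by linarith) hg.le),
      zero_mul]
  · rw [abs_of_nonpos hy] at h
    rw [Real.smoothTransition.zero_of_nonpos (x := (ρ + y) / g)
      (div_nonpos_of_nonpos_of_nonneg (by linarith) hg.le), mul_zero]

lemma cs1_smooth (ρ g : ℝ) : ContDiff ℝ ∞ (cs1 ρ g) := by
  unfold cs1
  refine ContDiff.mul ?_ ?_
  · exact Real.smoothTransition.contDiff.comp ((contDiff_const.sub contDiff_id).div_const g)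
  · exact Real.smoothTransition.contDiff.comp ((contDiff_const.add contDiff_id).div_const g)

lemma mul_diff {a b c d : ℝ} (ha : 0 ≤ a) (ha1 : a ≤ 1) (hd : 0 ≤ d) (hd1 : d ≤ 1) :
    |a * b - c * d| ≤ |b - d| + |a - c| := by
  have e : a * b - c * d = a * (b - d) + (a - c) * d := by ring
  rw [e]
  refine (abs_add_le _ _).trans ?_
  rw [abs_mul, abs_mul, abs_of_nonneg ha, abs_of_nonneg hd]
  have h1 := abs_nonneg (b - d)
  have h2 := abs_nonneg (a - c)
  nlinarith

lemma cs1_lip {D : ℝ} (_hD : 0 ≤ D) (h : ∀ x y : ℝ,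
    |Real.smoothTransition x - Real.smoothTransition y| ≤ D * |x - y|) {ρ g : ℝ} (hg : 0 < g)
    (y z : ℝ) : |cs1 ρ g y - cs1 ρ g z| ≤ 2 * D / g * |y - z| := by
  have e1 := h ((ρ - y) / g) ((ρ - z) / g)
  have e2 := h ((ρ + y) / g) ((ρ + z) / g)
  have f1 : |(ρ - y) / g - (ρ - z) / g| = |y - z| / g := by
    rw [← sub_div, abs_div, abs_of_pos hg]
    congr 1
    rw [← abs_neg]; congr 1; ring
  have f2 : |(ρ + y) / g - (ρ + z) / g| = |y - z| / g := by
    rw [← sub_div, abs_div, abs_of_pos hg]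
    congr 1
    congr 1; ring
  rw [f1] at e1
  rw [f2] at e2
  unfold cs1
  have := mul_diff (a := Real.smoothTransition ((ρ - y) / g))
    (b := Real.smoothTransition ((ρ + y) / g)) (c := Real.smoothTransition ((ρ - z) / g))
    (d := Real.smoothTransition ((ρ + z) / g)) (Real.smoothTransition.nonneg _)
    (Real.smoothTransition.le_one _) (Real.smoothTransition.nonneg _)
    (Real.smoothTransition.le_one _)
  refine this.trans ((add_le_add e2 e1).trans (le_of_eq ?_))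
  ring

theorem cutq : ∃ C : ℝ, 0 < C ∧ ∀ ρ' ρ : ℝ, 0 < ρ' → ρ' < ρ → ρ ≤ 1 →
    ∃ φ : V → ℝ, Cut ρ' ρ (C / (ρ - ρ') ^ 2) φ := by
  obtain ⟨D, hD, hlip⟩ := trans_lip
  refine ⟨108 * D ^ 2 + 1, by positivity, fun ρ' ρ h0 h _ => ?_⟩
  set g := ρ - ρ' with hg
  have hg0 : 0 < g := by linarith
  set φ : V → ℝ := fun x => cs1 ρ g (x 0) * (cs1 ρ g (x 1) * cs1 ρ g (x 2)) with hφ
  have hco : ∀ i : Fin 3, ContDiff ℝ ∞ (fun x : V => cs1 ρ g (x i)) := fun i =>
    (cs1_smooth ρ g).comp (contDiff_apply ℝ ℝ i)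
  have hsm : ContDiff ℝ ∞ φ := (hco 0).mul ((hco 1).mul (hco 2))
  have hnn : ∀ x, 0 ≤ φ x := fun x =>
    mul_nonneg (cs1_nonneg _ _ _) (mul_nonneg (cs1_nonneg _ _ _) (cs1_nonneg _ _ _))
  have hle : ∀ x, φ x ≤ 1 := fun x =>
    mul_le_one₀ (cs1_le _ _ _) (mul_nonneg (cs1_nonneg _ _ _) (cs1_nonneg _ _ _))
      (mul_le_one₀ (cs1_le _ _ _) (cs1_nonneg _ _ _) (cs1_le _ _ _))
  have hout : ∀ x ∉ ball (0 : V) ρ, φ x = 0 := by
    intro x hx
    rw [mem_ball_zero_iff, pi_norm_lt_iff (by linarith)] at hx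
    push Not at hx
    obtain ⟨i, hi⟩ := hx
    rw [Real.norm_eq_abs] at hi
    have hz := cs1_zero hg0 hi
    simp only [hφ]
    fin_cases i
    · have : cs1 ρ g (x 0) = 0 := hz
      rw [this, zero_mul]
    · have : cs1 ρ g (x 1) = 0 := hz
      rw [this, zero_mul, mul_zero]
    · have : cs1 ρ g (x 2) = 0 := hz
      rw [this, mul_zero, mul_zero]
  have hone : ∀ x ∈ ball (0 : V) ρ', φ x = 1 := by
    intro x hx
    rw [mem_ball_zero_iff, pi_norm_lt_iff h0] at hx
    have hx' : ∀ i, cs1 ρ g (x i) = 1 := by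
      intro i
      apply cs1_one hg0
      have := hx i
      rw [Real.norm_eq_abs] at this
      rw [hg]
      linarith
    simp only [hφ]
    rw [hx', hx', hx']; norm_num
  have hL : 0 ≤ 2 * D / g := by positivity
  have hlip2 : ∀ x y : V, |φ x - φ y| ≤ 6 * D / g * ‖x - y‖ := by
    intro x y
    have hc : ∀ i : Fin 3, |cs1 ρ g (x i) - cs1 ρ g (y i)| ≤ 2 * D / g * ‖x - y‖ := by
      intro i
      refine (cs1_lip hD hlip hg0 _ _).trans ?_
      refine mul_le_mul_of_nonneg_left ?_ hL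
      have := norm_le_pi_norm (x - y) i
      rwa [Pi.sub_apply, Real.norm_eq_abs] at this
    have h1 := mul_diff (a := cs1 ρ g (x 0)) (b := cs1 ρ g (x 1) * cs1 ρ g (x 2))
      (c := cs1 ρ g (y 0)) (d := cs1 ρ g (y 1) * cs1 ρ g (y 2)) (cs1_nonneg _ _ _) (cs1_le _ _ _)
      (mul_nonneg (cs1_nonneg _ _ _) (cs1_nonneg _ _ _))
      (mul_le_one₀ (cs1_le _ _ _) (cs1_nonneg _ _ _) (cs1_le _ _ _))
    have h2 := mul_diff (a := cs1 ρ g (x 1)) (b := cs1 ρ g (x 2))
      (c := cs1 ρ g (y 1)) (d := cs1 ρ g (y 2)) (cs1_nonneg _ _ _) (cs1_le _ _ _)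
      (cs1_nonneg _ _ _) (cs1_le _ _ _)
    have h3 := hc 0
    have h4 := hc 1
    have h5 := hc 2
    refine h1.trans ?_
    have e : 6 * D / g * ‖x - y‖ = 2 * D / g * ‖x - y‖ + 2 * D / g * ‖x - y‖ +
      2 * D / g * ‖x - y‖ := by ring
    rw [e]
    linarith
  have hpd : ∀ (i : Fin 3) (x : V), |pd i φ x| ≤ 6 * D / g := by
    intro i x
    have hL6 : 0 ≤ 6 * D / g := by positivity
    have h1 : ‖fderiv ℝ φ x‖ ≤ 6 * D / g := by
      refine (hsm.differentiable (by simp)).differentiableAt.hasFDerivAt.le_of_lip' hL6 ?_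
      exact Eventually.of_forall fun y => by
        rw [Real.norm_eq_abs]; exact hlip2 y x
    have h2 := (fderiv ℝ φ x).le_opNorm (Pi.single i (1 : ℝ) : V)
    have h3 : ‖(Pi.single i (1 : ℝ) : V)‖ = 1 := by
      rw [Pi.norm_single]; simp
    rw [h3, mul_one] at h2
    exact h2.trans h1
  refine ⟨φ, hsm, ?_, hnn, hle, hone, hout, ?_, ?_⟩
  · refine HasCompactSupport.intro (isCompact_closedBall (0 : V) ρ) fun x hx => ?_
    exact hout x fun h' => hx (ball_subset_closedBall h')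
  · intro x hx
    have h1 : IsLocalMin φ x := by
      refine Eventually.of_forall fun y => ?_
      rw [hout x hx]
      exact hnn y
    rw [SS_one]
    refine Finset.sum_eq_zero fun i _ => ?_
    unfold pd
    rw [h1.fderiv_eq_zero]
    simp
  · intro x
    rw [SS_one]
    have h1 : ∀ i, pd i φ x ^ 2 ≤ 36 * D ^ 2 / g ^ 2 := by
      intro i
      have h2 := hpd i x
      have h3 : pd i φ x ^ 2 ≤ (6 * D / g) ^ 2 := by
        rw [← sq_abs]
        exact pow_le_pow_left₀ (abs_nonneg _) h2 2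
      refine h3.trans (le_of_eq ?_)
      field_simp
      ring
    have h2 : ∑ i, pd i φ x ^ 2 ≤ ∑ _i : Fin 3, 36 * D ^ 2 / g ^ 2 :=
      Finset.sum_le_sum fun i _ => h1 i
    refine h2.trans ?_
    simp only [Finset.sum_const, Finset.card_univ, Fintype.card_fin, nsmul_eq_mul]
    have hg2 : 0 < g ^ 2 := by positivity
    rw [← mul_div_assoc]
    rw [div_le_div_iff_of_pos_right hg2]
    push_cast
    nlinarith

end Pool.Agent.Y475.AN

namespace Pool.Agent.Y475.AN

open H459R3.NS Pool.Agent.TH305.DR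

lemma SS_null (n : ℕ) : SS n (fun _ : V => (0 : ℝ)) = fun _ => 0 := by
  induction n with
  | zero => funext x; simp [SS_zero]
  | succ n ih => funext x; rw [SS_succ]; simp [pd_const', ih]

lemma step {C : ℝ} (hC : ∀ ρ' ρ : ℝ, 0 < ρ' → ρ' < ρ → ρ ≤ 1 →
    ∃ φ : V → ℝ, Cut ρ' ρ (C / (ρ - ρ') ^ 2) φ) {ρ' ρ : ℝ} (h0 : 0 < ρ') (h : ρ' < ρ)
    (h1 : ρ ≤ 1 / 4) (n : ℕ) {f : V → ℝ} (hf : ContDiff ℝ ∞ f)
    (hl : ∀ x ∈ ball (0 : V) (1 / 4), lap f x = 0) :
    N (n + 1) ρ' f ≤ 10 * (C / (ρ - ρ') ^ 2) * N n ρ f := by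
  obtain ⟨φ, hφ⟩ := hC ρ' ρ h0 h (by linarith)
  have h2 := elN n (w := f) (φ := φ) (g := fun _ _ => 0) hf hφ.sm hφ.cs (fun _ => contDiff_const)
    (ρ := ρ) (fun x hx => by
      rw [hl x (ball_subset_ball h1 hx)]
      simp [pd_const']) hφ.out
  simp only [SS_null, zero_mul, integral_zero, Finset.sum_const_zero, mul_zero, add_zero] at h2
  have h3 := N_le_cut (n + 1) hφ hf
  have h4 := cut1_le_N n hφ hf
  linarith

lemma iter {C : ℝ} (hC0 : 0 < C) (hC : ∀ ρ' ρ : ℝ, 0 < ρ' → ρ' < ρ → ρ ≤ 1 →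
    ∃ φ : V → ℝ, Cut ρ' ρ (C / (ρ - ρ') ^ 2) φ) (m : ℕ) {f : V → ℝ} (hf : ContDiff ℝ ∞ f)
    (hl : ∀ x ∈ ball (0 : V) (1 / 4), lap f x = 0) :
    N m (3 / 16) f ≤ (2560 * C * (m : ℝ) ^ 2) ^ m * N 0 (1 / 4) f := by
  rcases Nat.eq_zero_or_pos m with hm | hm
  · subst hm
    rw [pow_zero, one_mul]
    exact N_mono 0 (by norm_num) hf
  have hm' : (0 : ℝ) < m := by exact_mod_cast hm
  have key : ∀ j : ℕ, j ≤ m → N j (1 / 4 - j / (16 * m)) f ≤
      (2560 * C * (m : ℝ) ^ 2) ^ j * N 0 (1 / 4) f := by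
    intro j
    induction j with
    | zero => intro _; simp
    | succ j ih =>
      intro hj
      have h1 := ih (by omega)
      have hj' : (j : ℝ) + 1 ≤ m := by exact_mod_cast hj
      have hρ' : (3 : ℝ) / 16 ≤ 1 / 4 - ((j : ℝ) + 1) / (16 * m) := by
        have : ((j : ℝ) + 1) / (16 * m) ≤ 1 / 16 := by
          rw [div_le_div_iff₀ (by positivity) (by norm_num)]
          linarith
        linarith
      have hgap : (1 / 4 - (j : ℝ) / (16 * m)) - (1 / 4 - ((j : ℝ) + 1) / (16 * m)) =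
          1 / (16 * m) := by
        field_simp
        ring
      have hpos : (0 : ℝ) < 1 / (16 * m) := by positivity
      have h2 := step hC (ρ' := 1 / 4 - ((j : ℝ) + 1) / (16 * m)) (ρ := 1 / 4 - (j : ℝ) / (16 * m))
        (by linarith) (by linarith) (by
          have : 0 ≤ (j : ℝ) / (16 * m) := by positivity
          linarith) j hf hl
      rw [hgap] at h2
      have e : 10 * (C / (1 / (16 * (m : ℝ))) ^ 2) = 2560 * C * (m : ℝ) ^ 2 := by
        field_simp
        ring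
      rw [e] at h2
      push_cast
      refine h2.trans ?_
      have h3 := mul_le_mul_of_nonneg_left h1 (by positivity : 0 ≤ 2560 * C * (m : ℝ) ^ 2)
      refine h3.trans (le_of_eq ?_)
      rw [pow_succ]
      ring
  have h1 := key m le_rfl
  have e : (1 : ℝ) / 4 - m / (16 * m) = 3 / 16 := by
    field_simp
    norm_num
  rwa [e] at h1

lemma self_pow (m : ℕ) : (m : ℝ) ^ m ≤ 3 ^ m * m.factorial := by
  have h1 := Real.pow_div_factorial_le_exp (m : ℝ) (by positivity) m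
  rw [div_le_iff₀ (by positivity)] at h1
  refine h1.trans ?_
  refine mul_le_mul_of_nonneg_right ?_ (by positivity)
  have h2 : Real.exp (m : ℝ) = Real.exp 1 ^ m := by
    rw [← Real.exp_nat_mul, mul_one]
  rw [h2]
  exact pow_le_pow_left₀ (Real.exp_pos 1).le (by
    have := Real.exp_one_lt_d9
    linarith) m

lemma fact_shift (n j : ℕ) (hj : j ≤ 3) :
    ((n + j).factorial : ℝ) ≤ n.factorial * (27 * 8 ^ n) := by
  have h1 : (n + j).factorial ≤ (n + 3).factorial := Nat.factorial_le (by omega)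
  have h2 : (n + 3).factorial = (n + 3) * ((n + 2) * ((n + 1) * n.factorial)) := by
    rw [Nat.factorial_succ, Nat.factorial_succ, Nat.factorial_succ]
  have h3 : n + 3 ≤ 3 * 2 ^ n := by
    induction n with
    | zero => norm_num
    | succ n ih =>
      have := ih (Nat.factorial_le (by omega)) (by
        rw [Nat.factorial_succ, Nat.factorial_succ, Nat.factorial_succ])
      rw [pow_succ]
      have : 1 ≤ 2 ^ n := Nat.one_le_two_pow
      omega
  have h4 : ((n : ℝ) + 3) ≤ 3 * 2 ^ n := by exact_mod_cast h3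
  have h5 : ((n + j).factorial : ℝ) ≤ (n + 3) * ((n + 2) * ((n + 1) * n.factorial)) := by
    rw [h2] at h1
    exact_mod_cast h1
  have hf : (0 : ℝ) ≤ n.factorial := by positivity
  have hn : (0 : ℝ) ≤ n := by positivity
  have h6 : ((n : ℝ) + 3) * ((n + 2) * (n + 1)) ≤ (n + 3) ^ 3 := by nlinarith
  have h7 : ((n : ℝ) + 3) ^ 3 ≤ (3 * 2 ^ n) ^ 3 := pow_le_pow_left₀ (by positivity) h4 3
  have h8 : ((3 : ℝ) * 2 ^ n) ^ 3 = 27 * 8 ^ n := by
    rw [mul_pow, ← pow_mul, mul_comm n 3, pow_mul]; norm_num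
  calc ((n + j).factorial : ℝ) ≤ (n + 3) * ((n + 2) * ((n + 1) * n.factorial)) := h5
    _ = n.factorial * (((n : ℝ) + 3) * ((n + 2) * (n + 1))) := by ring
    _ ≤ n.factorial * (27 * 8 ^ n) := by
      refine mul_le_mul_of_nonneg_left ?_ hf
      rw [← h8]
      exact h6.trans h7

theorem hara : ∃ C Hc : ℝ, 0 < C ∧ 1 ≤ Hc ∧ ∀ (n : ℕ) (f : V → ℝ), ContDiff ℝ ∞ f →
    (∀ x ∈ ball (0 : V) (1 / 4), lap f x = 0) → ∀ x ∈ ball (0 : V) (1 / 8),
      SS n f x ≤ C * (Hc ^ n * n.factorial) ^ 2 * N 0 (1 / 4) f := by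
  obtain ⟨C, hC0, hC⟩ := cutq
  obtain ⟨C', hC'0, hC'⟩ := pointN (ρ' := 1 / 8) (ρ := 3 / 16) (by norm_num) (by norm_num)
    (by norm_num)
  set K : ℝ := 23040 * C + 1 with hK
  have hK1 : 1 ≤ K := by rw [hK]; linarith
  have hK0 : 0 < K := by linarith
  refine ⟨4 * 729 * C' * K ^ 3, 64 * K, by positivity, by linarith, fun n f hf hl x hx => ?_⟩
  have hN0 := N_nonneg 0 (1 / 4) f
  have hb : ∀ j : ℕ, j ≤ 3 → N (n + j) (3 / 16) f ≤
      K ^ 3 * K ^ n * (n.factorial * (27 * 8 ^ n)) ^ 2 * N 0 (1 / 4) f := by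
    intro j hj
    have h1 := iter hC0 hC (n + j) hf hl
    refine h1.trans ?_
    refine mul_le_mul_of_nonneg_right ?_ hN0
    have h2 : (2560 * C * ((n + j : ℕ) : ℝ) ^ 2) ^ (n + j) =
        (2560 * C) ^ (n + j) * (((n + j : ℕ) : ℝ) ^ (n + j)) ^ 2 := by
      rw [mul_pow, ← pow_mul, ← pow_mul, mul_comm 2 (n + j)]
    rw [h2]
    have h3 := self_pow (n + j)
    have h4 : (((n + j : ℕ) : ℝ) ^ (n + j)) ^ 2 ≤ (3 ^ (n + j) * (n + j).factorial) ^ 2 :=
      pow_le_pow_left₀ (by positivity) h3 2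
    have h5 : (2560 * C) ^ (n + j) * (3 ^ (n + j) * ((n + j).factorial : ℝ)) ^ 2 =
        (23040 * C) ^ (n + j) * ((n + j).factorial : ℝ) ^ 2 := by
      rw [mul_pow (3 ^ (n + j)) _ 2, ← pow_mul, mul_comm (n + j) 2, pow_mul, ← mul_assoc,
        ← mul_pow]
      norm_num
      left
      congr 1
      ring
    have h6 : (23040 * C) ^ (n + j) ≤ K ^ (n + j) :=
      pow_le_pow_left₀ (by positivity) (by rw [hK]; linarith) _
    have h7 : K ^ (n + j) ≤ K ^ 3 * K ^ n := by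
      rw [← pow_add]
      exact pow_le_pow_right₀ hK1 (by omega)
    have h8 : ((n + j).factorial : ℝ) ^ 2 ≤ (n.factorial * (27 * 8 ^ n)) ^ 2 :=
      pow_le_pow_left₀ (by positivity) (fact_shift n j hj) 2
    calc (2560 * C) ^ (n + j) * (((n + j : ℕ) : ℝ) ^ (n + j)) ^ 2
        ≤ (2560 * C) ^ (n + j) * (3 ^ (n + j) * ((n + j).factorial : ℝ)) ^ 2 :=
          mul_le_mul_of_nonneg_left h4 (by positivity)
      _ = (23040 * C) ^ (n + j) * ((n + j).factorial : ℝ) ^ 2 := h5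
      _ ≤ K ^ 3 * K ^ n * (n.factorial * (27 * 8 ^ n)) ^ 2 :=
          mul_le_mul (h6.trans h7) h8 (by positivity) (by positivity)
  have h0 := hb 0 (by norm_num)
  have h1 := hb 1 (by norm_num)
  have h2 := hb 2 (by norm_num)
  have h3 := hb 3 (by norm_num)
  rw [add_zero] at h0
  set Z := K ^ 3 * K ^ n * (n.factorial * (27 * 8 ^ n)) ^ 2 * N 0 (1 / 4) f with hZ
  have h4 := hC' n f hf x hx
  have h5 : SS n f x ≤ C' * (4 * Z) := by
    refine h4.trans (mul_le_mul_of_nonneg_left ?_ hC'0.le)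
    linarith
  refine h5.trans ?_
  have h6 : (64 * K) ^ n ≤ ((64 * K) ^ n) ^ 2 := by
    have : 1 ≤ (64 * K) ^ n := one_le_pow₀ (by linarith)
    nlinarith
  have e1 : C' * (4 * Z) = 4 * 729 * C' * K ^ 3 * ((64 * K) ^ n * (n.factorial : ℝ) ^ 2) *
      N 0 (1 / 4) f := by
    rw [hZ, mul_pow (n.factorial : ℝ), mul_pow (27 : ℝ), ← pow_mul, mul_comm n 2, pow_mul,
      mul_pow (64 : ℝ)]
    norm_num
    ring
  rw [e1]
  refine mul_le_mul_of_nonneg_right ?_ hN0
  refine mul_le_mul_of_nonneg_left ?_ (by positivity)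
  rw [mul_pow ((64 * K) ^ n) (n.factorial : ℝ) 2]
  exact mul_le_mul_of_nonneg_right h6 (by positivity)




end Pool.Agent.Y475.AN
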