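import Pool.Agent.Y7.AN.Stm
import Pool.Agent.Y475.AN.HaraA

/-! Project AN: cut-off functions (S_CUTQ) and analytic interior estimates for harmonic functions
(S_HARA). -/

set_option autoImplicit false

namespace Pool.Agent.Y475.AN

theorem t_cutq : Pool.Agent.Y7.AN.S_CUTQ := cutq

theorem t_hara : Pool.Agent.Y7.AN.S_HARA := hara

end Pool.Agent.Y475.AN
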